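import Pool.Agent.UL5.Stmts
import Pool.Agent.Helper77_UL3.PAA

/-!
# Squad UL5, row PKA (helper74): a direction with small `Hm`
-/

set_option autoImplicit false

namespace Pool.Agent.UL5.H74

open MeasureTheory Set Pool.Agent.UL3 Pool.Agent.UL4 Pool.Agent.UL5

theorem pka (cap : CapStmt) : PkaStmt := by
  intro C hC
  have hb : ∃ a ∈ C, a ∉ interior C := by
    by_contra hcon
    push Not at hcon
    have h1 : IsOpen C := by
      have : interior C = C := Subset.antisymm interior_subset fun a ha => hcon a ha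
      rw [← this]
      exact isOpen_interior
    rcases isClopen_iff.1 ⟨hC.cpt.isClosed, h1⟩ with h2 | h2
    · obtain ⟨x, hx⟩ := hC.int
      have := interior_subset hx
      rw [h2] at this
      exact this
    · have h3 := hC.cpt
      rw [h2] at h3
      exact noncompact_univ (ℝ × ℝ) h3
  obtain ⟨a, ha, ha'⟩ := hb
  obtain ⟨b, hb, hba, hadm, hcr⟩ := Pool.Agent.UL3.H77.paa C hC a ha ha'
  have hb' : b ∉ interior C := by
    have := hadm 0 1 (Or.inr one_ne_zero)
    simpa using this
  have hba' : b - a ∉ interior C := by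
    have := hadm (-1) 1 (Or.inr one_ne_zero)
    have h1 : ((-1 : ℤ) : ℝ) • a + ((1 : ℤ) : ℝ) • b = b - a := by
      push_cast
      module
    rw [h1] at this
    exact this
  have hsum := cap C a b hC ha hb hba ha' hb' hba' hcr
  by_cases h1 : 3 * Hm C a ≤ ar C
  · exact ⟨a, ha, ha', h1⟩
  by_cases h2 : 3 * Hm C b ≤ ar C
  · exact ⟨b, hb, hb', h2⟩
  refine ⟨b - a, hba, hba', ?_⟩
  push Not at h1 h2
  linarith

end Pool.Agent.UL5.H74
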